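import Mathlib

/-!
# Pro-`p` groups in which some element lies in no non-normal closed subgroup

Let `G` be a pro-`p` group and `S ≠ G` a subgroup such that every closed subgroup of `G` which is not
contained in `S` is normal. Then the derived subgroup is a finite cyclic `p`-group.
-/

namespace Pool.Agent.Q180.PG

open Set
open scoped commutatorElement

/-- pro-`p` groups: profinite groups all of whose open normal subgroups have `p`-power index. -/
structure IsProP (p : ℕ) (G : Type*) [Group G] [TopologicalSpace G] : Prop where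
  top : IsTopologicalGroup G
  compact : CompactSpace G
  t2 : T2Space G
  td : TotallyDisconnectedSpace G
  index : ∀ N : Subgroup G, N.Normal → IsOpen (N : Set G) → ∃ k : ℕ, N.index = p ^ k

variable {p : ℕ} {G : Type*} [Group G] [TopologicalSpace G]

/-- separation of points by open normal subgroups -/
lemma IsProP.sep (h : IsProP p G) {z : G} (hz : z ≠ 1) :
    ∃ N : Subgroup G, N.Normal ∧ IsOpen (N : Set G) ∧ z ∉ N := by
  have := h.top
  have := h.compact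
  have := h.t2
  have := h.td
  obtain ⟨N, hN⟩ := ProfiniteGrp.exist_openNormalSubgroup_sub_open_nhds_of_one
    (G := G) (U := {z}ᶜ) isOpen_compl_singleton (by simpa using hz.symm)
  exact ⟨N.toSubgroup, N.isNormal', N.isOpen', fun hzN => hN hzN rfl⟩

lemma IsProP.eq_one (h : IsProP p G) {z : G}
    (hz : ∀ N : Subgroup G, N.Normal → IsOpen (N : Set G) → z ∈ N) : z = 1 := by
  by_contra hne
  obtain ⟨N, h1, h2, h3⟩ := h.sep hne
  exact h3 (hz N h1 h2)

/-- the hypothesis: closed subgroups not contained in `S` are normal -/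
def Cap (S : Subgroup G) : Prop :=
  S ≠ ⊤ ∧ ∀ L : Subgroup G, IsClosed (L : Set G) → ∀ g ∈ L, g ∉ S → L.Normal

variable {S : Subgroup G}

lemma exists_not_mem (hS : Cap S) : ∃ g, g ∉ S := by
  by_contra hcon
  push Not at hcon
  exact hS.1 ((Subgroup.eq_top_iff' S).2 hcon)

/-- approximating elements of the closure of `⟨g⟩` -/
lemma approx (h : IsProP p G) {g x : G} (hx : x ∈ closure (Subgroup.zpowers g : Set G))
    {N : Subgroup G} (hN : IsOpen (N : Set G)) : ∃ a : ℤ, x⁻¹ * g ^ a ∈ N := by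
  have := h.top
  rw [mem_closure_iff] at hx
  obtain ⟨y, hy1, hy2⟩ := hx {y | x⁻¹ * y ∈ N} (hN.preimage (continuous_const.mul continuous_id))
    (by simp [N.one_mem])
  obtain ⟨a, rfl⟩ := hy2
  exact ⟨a, hy1⟩

lemma clos_normal (h : IsProP p G) (hS : Cap S) {g : G} (hg : g ∉ S) :
    haveI := h.top; ((Subgroup.zpowers g).topologicalClosure).Normal := by
  have := h.top
  exact hS.2 _ (Subgroup.isClosed_topologicalClosure _) g
    (Subgroup.le_topologicalClosure _ (Subgroup.mem_zpowers g)) hg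

lemma conj_approx (h : IsProP p G) (hS : Cap S) {g : G} (hg : g ∉ S) (k : G)
    {N : Subgroup G} (hN : IsOpen (N : Set G)) : ∃ a : ℤ, (k * g * k⁻¹)⁻¹ * g ^ a ∈ N := by
  have := h.top
  have hn := clos_normal h hS hg
  have hmem : k * g * k⁻¹ ∈ (Subgroup.zpowers g).topologicalClosure :=
    hn.conj_mem g (Subgroup.le_topologicalClosure _ (Subgroup.mem_zpowers g)) k
  exact approx h hmem hN

/-- commutators are central, first version -/
lemma central_of_not_mem (h : IsProP p G) (hS : Cap S) {g : G} (hg : g ∉ S) (x y : G) :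
    Commute ⁅x, y⁆ g := by
  rw [← commutatorElement_eq_one_iff_commute]
  apply h.eq_one
  intro N hN hNo
  obtain ⟨a, ha⟩ := conj_approx h hS hg x⁻¹ hNo
  obtain ⟨b, hb⟩ := conj_approx h hS hg y⁻¹ hNo
  rw [← QuotientGroup.eq_one_iff (N := N)]
  have ha' : (x : G ⧸ N)⁻¹ * g * ((x : G ⧸ N)⁻¹)⁻¹ = (g : G ⧸ N) ^ a := by
    rw [← QuotientGroup.eq] at ha
    simpa using ha
  have hb' : (y : G ⧸ N)⁻¹ * g * ((y : G ⧸ N)⁻¹)⁻¹ = (g : G ⧸ N) ^ b := by
    rw [← QuotientGroup.eq] at hb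
    simpa using hb
  have key : ∀ (X Y g : G ⧸ N) (a b : ℤ), X * g * X⁻¹ = g ^ a → Y * g * Y⁻¹ = g ^ b →
      X * Y * g * (X * Y)⁻¹ = g ^ (a * b) := by
    intro X Y g a b hX hY
    have e : X * Y * g * (X * Y)⁻¹ = X * (Y * g * Y⁻¹) * X⁻¹ := by group
    rw [e, hY, ← conj_zpow, hX, zpow_mul]
  have k1 := key _ _ g a b ha' hb'
  have k2 := key _ _ g b a hb' ha'
  rw [mul_comm b a, ← k1] at k2
  have key2 : ∀ P Q g : G ⧸ N, P * g * P⁻¹ = Q * g * Q⁻¹ → P⁻¹ * Q * g = g * (P⁻¹ * Q) := by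
    intro P Q g hPQ
    have e1 : P⁻¹ * Q * g = P⁻¹ * (Q * g * Q⁻¹) * Q := by group
    rw [e1, ← hPQ]
    group
  have k3 : ⁅(x : G ⧸ N), (y : G ⧸ N)⁆ * g = g * ⁅(x : G ⧸ N), (y : G ⧸ N)⁆ := by
    have e1 : ⁅(x : G ⧸ N), (y : G ⧸ N)⁆ =
        ((y : G ⧸ N)⁻¹ * (x : G ⧸ N)⁻¹)⁻¹ * ((x : G ⧸ N)⁻¹ * (y : G ⧸ N)⁻¹) := by
      rw [commutatorElement_def]; group
    rw [e1]
    exact key2 _ _ _ k2
  have k4 : ((⁅⁅x, y⁆, g⁆ : G) : G ⧸ N) = ⁅⁅(x : G ⧸ N), (y : G ⧸ N)⁆, (g : G ⧸ N)⁆ := by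
    simp [commutatorElement_def]
  rw [k4, commutatorElement_eq_one_iff_commute]
  exact k3

/-- commutators are central -/
lemma central (h : IsProP p G) (hS : Cap S) (x y z : G) : Commute ⁅x, y⁆ z := by
  by_cases hz : z ∈ S
  · obtain ⟨g, hg⟩ := exists_not_mem hS
    have h1 := central_of_not_mem h hS hg x y
    have h2 : g * z ∉ S := fun hgz => hg ((Subgroup.mul_mem_cancel_right S hz).1 hgz)
    have h3 := central_of_not_mem h hS h2 x y
    have h4 := (h1.inv_right).mul_right h3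
    rwa [inv_mul_cancel_left] at h4
  · exact central_of_not_mem h hS hz x y

section Central

variable (hc : ∀ x y z : G, Commute ⁅x, y⁆ z)

include hc

lemma comm_mul_right (g h k : G) : ⁅g, h * k⁆ = ⁅g, h⁆ * ⁅g, k⁆ := by
  have e : ⁅g, h * k⁆ = ⁅g, h⁆ * (h * ⁅g, k⁆ * h⁻¹) := by
    simp only [commutatorElement_def]; group
  rw [e, ← (hc g k h).eq]
  group

lemma comm_mul_left (g h k : G) : ⁅g * h, k⁆ = ⁅g, k⁆ * ⁅h, k⁆ := by
  have e : ⁅g * h, k⁆ = g * ⁅h, k⁆ * g⁻¹ * ⁅g, k⁆ := by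
    simp only [commutatorElement_def]; group
  rw [e, ← (hc h k g).eq, mul_inv_cancel_right]
  exact (hc h k _).eq

/-- the homomorphism `h ↦ [g, h]` -/
def chom (g : G) : G →* G where
  toFun h := ⁅g, h⁆
  map_one' := by simp [commutatorElement_def]
  map_mul' h k := comm_mul_right hc g h k

/-- the homomorphism `g ↦ [g, h]` -/
def chom' (k : G) : G →* G where
  toFun g := ⁅g, k⁆
  map_one' := by simp [commutatorElement_def]
  map_mul' g h := comm_mul_left hc g h k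

end Central

/-- torsion: a non-central element outside `S` has finite order -/
lemma torsion (hp : p.Prime) (h : IsProP p G) (hS : Cap S) {g k : G} (hg : g ∉ S)
    (hz : ⁅g, k⁆ ≠ 1) : ∃ r : ℕ, g ^ (p ^ r) = 1 := by
  have := h.top
  have hc := central h hS
  set z := ⁅g, k⁆ with hzdef
  have hzC : z ∈ (Subgroup.zpowers g).topologicalClosure := by
    have hn := clos_normal h hS hg
    have hgm : g ∈ (Subgroup.zpowers g).topologicalClosure :=
      Subgroup.le_topologicalClosure _ (Subgroup.mem_zpowers g)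
    have e : z = g * (k * g⁻¹ * k⁻¹) := by rw [hzdef, commutatorElement_def]; group
    rw [e]
    exact mul_mem hgm (hn.conj_mem _ (inv_mem hgm) k)
  obtain ⟨N0, hN0, hN0o, hzN0⟩ := h.sep hz
  obtain ⟨r0, hr0⟩ := h.index N0 hN0 hN0o
  refine ⟨2 * r0, ?_⟩
  apply h.eq_one
  intro N hN hNo
  set M := N ⊓ N0 with hM
  have hMn : M.Normal := inferInstance
  have hMo : IsOpen (M : Set G) := by
    rw [hM, Subgroup.coe_inf]
    exact hNo.inter hN0o
  obtain ⟨k0, hk0⟩ := h.index M hMn hMo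
  obtain ⟨a, ha⟩ := approx h hzC hMo
  have hza : (z : G ⧸ M) = (g : G ⧸ M) ^ a := by
    rw [← QuotientGroup.eq] at ha
    simpa using ha
  -- `g ^ (a * a)` is trivial modulo `M`
  have hgaa : (g : G ⧸ M) ^ (a * a) = 1 := by
    rw [zpow_mul, ← hza]
    have e1 : ⁅g ^ a, k⁆ = z ^ a := map_zpow (chom' hc k) g a
    have e2 : ((⁅g ^ a, k⁆ : G) : G ⧸ M) = ⁅(g : G ⧸ M) ^ a, (k : G ⧸ M)⁆ := by
      simp [commutatorElement_def]
    have e3 : ⁅(z : G ⧸ M), (k : G ⧸ M)⁆ = ((⁅z, k⁆ : G) : G ⧸ M) := by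
      simp [commutatorElement_def]
    have e4 : ⁅z, k⁆ = 1 := by
      rw [commutatorElement_eq_one_iff_commute]
      exact hc g k k
    rw [← hza, e3, e4, e1] at e2
    rw [QuotientGroup.mk_zpow] at e2
    simpa using e2
  have hcard : orderOf (g : G ⧸ M) ∣ p ^ k0 := by
    rw [← hk0, Subgroup.index]
    exact orderOf_dvd_natCard _
  obtain ⟨j, -, hj⟩ := (Nat.dvd_prime_pow hp).1 hcard
  have hdvd : ((p ^ j : ℕ) : ℤ) ∣ a * a := by
    rw [← hj]
    exact orderOf_dvd_iff_zpow_eq_one.2 hgaa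
  have hndvd : ¬ ((p ^ r0 : ℕ) : ℤ) ∣ a := by
    rintro ⟨c, rfl⟩
    apply hzN0
    have h1 : z⁻¹ * g ^ (((p ^ r0 : ℕ) : ℤ) * c) ∈ N0 := (Subgroup.mem_inf.1 ha).2
    have h2 : g ^ (((p ^ r0 : ℕ) : ℤ) * c) ∈ N0 := by
      rw [zpow_mul, zpow_natCast, ← hr0]
      apply zpow_mem
      exact Subgroup.pow_index_mem N0 g
    have h3 := mul_mem h2 (inv_mem h1)
    simpa using h3
  have hj2 : j ≤ 2 * r0 := by
    by_contra hcon
    push Not at hcon
    apply hndvd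
    have h1 : ((p ^ r0 : ℕ) : ℤ) ^ 2 ∣ a ^ 2 := by
      rw [pow_two a]
      refine dvd_trans ?_ hdvd
      rw [← Nat.cast_pow, ← pow_mul, mul_comm r0 2]
      exact_mod_cast pow_dvd_pow p hcon.le
    exact (Int.pow_dvd_pow_iff (by norm_num)).1 h1
  have h5 : (g : G ⧸ M) ^ (p ^ (2 * r0)) = 1 := by
    rw [← orderOf_dvd_iff_pow_eq_one, hj]
    exact pow_dvd_pow p hj2
  have h6 : g ^ (p ^ (2 * r0)) ∈ M := by
    rw [← QuotientGroup.eq_one_iff]
    simpa using h5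
  exact (Subgroup.mem_inf.1 h6).1

/-- the group of commutators `[g, h]`, `h ∈ G` -/
def A (hc : ∀ x y z : G, Commute ⁅x, y⁆ z) (g : G) : Subgroup G := (chom hc g).range

lemma mem_A {hc : ∀ x y z : G, Commute ⁅x, y⁆ z} {g x : G} : x ∈ A hc g ↔ ∃ h, ⁅g, h⁆ = x :=
  Iff.rfl

lemma comm_mem (hc : ∀ x y z : G, Commute ⁅x, y⁆ z) (g x : G) : ⁅g, x⁆ ∈ A hc g := ⟨x, rfl⟩

lemma comm_mem' (hc : ∀ x y z : G, Commute ⁅x, y⁆ z) (g x : G) : ⁅g, x⁆ ∈ A hc x := by
  rw [← commutatorElement_inv x g]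
  exact inv_mem (comm_mem hc x g)

lemma A_info (hp : p.Prime) (h : IsProP p G) (hS : Cap S)
    (hc : ∀ x y z : G, Commute ⁅x, y⁆ z) {g : G} (hg : g ∉ S) :
    ∃ m : ℕ, Nat.card (A hc g) = p ^ m ∧ IsCyclic (A hc g) := by
  have := h.t2
  by_cases hcen : ∀ k : G, ⁅g, k⁆ = 1
  · have hA : A hc g = ⊥ := by
      rw [eq_bot_iff]
      rintro x ⟨k, rfl⟩
      rw [Subgroup.mem_bot]
      exact hcen k
    refine ⟨0, ?_, ?_⟩
    · rw [hA]; simp
    · rw [hA]; infer_instance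
  · push Not at hcen
    obtain ⟨k, hk⟩ := hcen
    obtain ⟨r, hr⟩ := torsion hp h hS hg hk
    have hfin : Finite (Subgroup.zpowers g) :=
      (finite_zpowers.2 (isOfFinOrder_iff_pow_eq_one.2 ⟨p ^ r, pow_pos hp.pos r, hr⟩)).to_subtype
    have hcl : IsClosed (Subgroup.zpowers g : Set G) := (Set.toFinite _).isClosed
    have hn : (Subgroup.zpowers g).Normal := hS.2 _ hcl g (Subgroup.mem_zpowers g) hg
    have hle : A hc g ≤ Subgroup.zpowers g := by
      rintro x ⟨y, rfl⟩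
      have e : ⁅g, y⁆ = g * (y * g⁻¹ * y⁻¹) := by rw [commutatorElement_def]; group
      change ⁅g, y⁆ ∈ _
      rw [e]
      exact mul_mem (Subgroup.mem_zpowers g)
        (hn.conj_mem _ (inv_mem (Subgroup.mem_zpowers g)) y)
    have hcard : Nat.card (A hc g) ∣ p ^ r := by
      refine (Subgroup.card_dvd_of_le hle).trans ?_
      rw [Nat.card_zpowers]
      exact orderOf_dvd_of_pow_eq_one hr
    obtain ⟨m, -, hm⟩ := (Nat.dvd_prime_pow hp).1 hcard
    refine ⟨m, hm, ?_⟩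
    exact isCyclic_of_injective (Subgroup.inclusion hle) (Subgroup.inclusion_injective hle)

/-- in a cyclic group of order `p ^ (n+1)`: a criterion for generators -/
lemma gen (hp : p.Prime) {B : Subgroup G} {n : ℕ} (hB : Nat.card B = p ^ (n + 1)) {x : G}
    (hx : x ∈ B) (hx1 : x ^ (p ^ n) ≠ 1) : Subgroup.zpowers x = B := by
  have : Fact p.Prime := ⟨hp⟩
  have hfin : Finite B := Nat.finite_of_card_ne_zero (by rw [hB]; exact pow_ne_zero _ hp.ne_zero)
  have h1 : x ^ (p ^ (n + 1)) = 1 := by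
    have := pow_card_eq_one' (x := (⟨x, hx⟩ : B))
    rw [hB] at this
    simpa using congrArg Subtype.val this
  have h2 := orderOf_eq_prime_pow hx1 h1
  apply Subgroup.eq_of_le_of_card_ge
  · rwa [Subgroup.zpowers_le]
  · rw [Nat.card_zpowers, h2, hB]

/-- the family `A g`, `g ∉ S`, is directed -/
lemma directed (hp : p.Prime) (h : IsProP p G) (hS : Cap S)
    (hc : ∀ x y z : G, Commute ⁅x, y⁆ z) {g1 g2 : G} (hg1 : g1 ∉ S) (hg2 : g2 ∉ S) :
    ∃ g3, g3 ∉ S ∧ A hc g1 ≤ A hc g3 ∧ A hc g2 ≤ A hc g3 := by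
  by_cases h12 : A hc g1 ≤ A hc g2
  · exact ⟨g2, hg2, h12, le_refl _⟩
  by_cases h21 : A hc g2 ≤ A hc g1
  · exact ⟨g1, hg1, le_refl _, h21⟩
  -- both groups are nontrivial
  have hgen : ∀ g, g ∉ S → A hc g ≠ ⊥ → ∃ n : ℕ, Nat.card (A hc g) = p ^ (n + 1) ∧
      ∃ k : G, ⁅g, k⁆ ^ (p ^ n) ≠ 1 := by
    intro g hg hne
    obtain ⟨m, hm, hcyc⟩ := A_info hp h hS hc hg
    obtain ⟨n, rfl⟩ : ∃ n, m = n + 1 := by
      rcases m with _ | n
      · exfalso
        apply hne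
        rw [pow_zero] at hm
        exact Subgroup.card_eq_one.1 hm
      · exact ⟨n, rfl⟩
    refine ⟨n, hm, ?_⟩
    obtain ⟨⟨a, k, rfl⟩, hgen⟩ := hcyc.exists_generator
    refine ⟨k, ?_⟩
    intro hk
    change ⁅g, k⁆ ^ p ^ n = 1 at hk
    have h1 : orderOf (⟨(chom hc g) k, ⟨k, rfl⟩⟩ : A hc g) = Nat.card (A hc g) :=
      orderOf_eq_card_of_forall_mem_zpowers hgen
    rw [hm] at h1
    have h2 : (⟨(chom hc g) k, ⟨k, rfl⟩⟩ : A hc g) ^ (p ^ n) = 1 := by
      ext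
      exact hk
    have h3 := orderOf_dvd_of_pow_eq_one h2
    rw [h1] at h3
    have := (Nat.pow_dvd_pow_iff_le_right hp.one_lt).1 h3
    omega
  have hne1 : A hc g1 ≠ ⊥ := fun e => h12 (by rw [e]; exact bot_le)
  have hne2 : A hc g2 ≠ ⊥ := fun e => h21 (by rw [e]; exact bot_le)
  obtain ⟨n1, hn1, k1, hk1⟩ := hgen g1 hg1 hne1
  obtain ⟨n2, hn2, k2, hk2⟩ := hgen g2 hg2 hne2
  have hmulpow : ∀ (g x y : G) (n : ℕ), ⁅g, x * y⁆ ^ n = ⁅g, x⁆ ^ n * ⁅g, y⁆ ^ n := by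
    intro g x y n
    rw [comm_mul_right hc]
    exact (hc g x _).mul_pow n
  -- an element good for both
  obtain ⟨k, hka, hkb⟩ : ∃ k : G, ⁅g1, k⁆ ^ (p ^ n1) ≠ 1 ∧ ⁅g2, k⁆ ^ (p ^ n2) ≠ 1 := by
    by_cases h1 : ⁅g2, k1⁆ ^ (p ^ n2) = 1
    · by_cases h2 : ⁅g1, k2⁆ ^ (p ^ n1) = 1
      · refine ⟨k1 * k2, ?_, ?_⟩
        · rw [hmulpow, h2, mul_one]; exact hk1
        · rw [hmulpow, h1, one_mul]; exact hk2
      · exact ⟨k2, h2, hk2⟩
    · exact ⟨k1, hk1, h1⟩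
  have hfin : ∀ x, x ∉ S → ⁅g1, x⁆ ^ (p ^ n1) ≠ 1 → ⁅g2, x⁆ ^ (p ^ n2) ≠ 1 →
      ∃ g3, g3 ∉ S ∧ A hc g1 ≤ A hc g3 ∧ A hc g2 ≤ A hc g3 := by
    intro x hx hx1 hx2
    refine ⟨x, hx, ?_, ?_⟩
    · rw [← gen hp hn1 (comm_mem hc g1 x) hx1, Subgroup.zpowers_le]
      exact comm_mem' hc g1 x
    · rw [← gen hp hn2 (comm_mem hc g2 x) hx2, Subgroup.zpowers_le]
      exact comm_mem' hc g2 x
  by_cases hkS : k ∈ S
  · apply hfin (g1 * k)
    · exact fun hgk => hg1 ((Subgroup.mul_mem_cancel_right S hkS).1 hgk)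
    · rw [hmulpow, commutatorElement_self, one_pow, one_mul]
      exact hka
    · rw [hmulpow]
      have h1 : ⁅g2, g1⁆ ^ (p ^ n2) = 1 := by
        by_contra hne
        apply h21
        rw [← gen hp hn2 (comm_mem hc g2 g1) hne, Subgroup.zpowers_le]
        exact comm_mem' hc g2 g1
      rw [h1, one_mul]
      exact hkb
  · exact hfin k hkS hka hkb

/-- every element of the abstract commutator subgroup lies in some `A g` -/
lemma mem_commutator (hp : p.Prime) (h : IsProP p G) (hS : Cap S)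
    (hc : ∀ x y z : G, Commute ⁅x, y⁆ z) {x : G} (hx : x ∈ commutator G) :
    ∃ g, g ∉ S ∧ x ∈ A hc g := by
  rw [commutator_eq_closure] at hx
  induction hx using Subgroup.closure_induction with
  | mem x hx =>
    obtain ⟨a, b, rfl⟩ := hx
    by_cases ha : a ∈ S
    · obtain ⟨g, hg⟩ := exists_not_mem hS
      have h2 : g * a ∉ S := fun hga => hg ((Subgroup.mul_mem_cancel_right S ha).1 hga)
      obtain ⟨g3, hg3, h3, h4⟩ := directed hp h hS hc hg h2
      refine ⟨g3, hg3, ?_⟩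
      have e : ⁅a, b⁆ = ⁅g, b⁆⁻¹ * ⁅g * a, b⁆ := by
        rw [comm_mul_left hc, inv_mul_cancel_left]
      rw [e]
      exact mul_mem (inv_mem (h3 ⟨b, rfl⟩)) (h4 ⟨b, rfl⟩)
    · exact ⟨a, ha, ⟨b, rfl⟩⟩
  | one =>
    obtain ⟨g, hg⟩ := exists_not_mem hS
    exact ⟨g, hg, one_mem _⟩
  | mul x y _ _ hx hy =>
    obtain ⟨g1, hg1, h1⟩ := hx
    obtain ⟨g2, hg2, h2⟩ := hy
    obtain ⟨g3, hg3, h3, h4⟩ := directed hp h hS hc hg1 hg2
    exact ⟨g3, hg3, mul_mem (h3 h1) (h4 h2)⟩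
  | inv x _ hx =>
    obtain ⟨g1, hg1, h1⟩ := hx
    exact ⟨g1, hg1, inv_mem h1⟩

lemma A_le_commutator {hc : ∀ x y z : G, Commute ⁅x, y⁆ z} (g : G) : A hc g ≤ commutator G := by
  rintro x ⟨k, rfl⟩
  exact Subgroup.commutator_mem_commutator (Subgroup.mem_top g) (Subgroup.mem_top k)

/-- the orders of the groups `A g` are bounded -/
lemma bounded (hp : p.Prime) (h : IsProP p G) (hS : Cap S)
    (hc : ∀ x y z : G, Commute ⁅x, y⁆ z) :
    ∃ B : ℕ, ∀ g, g ∉ S → Nat.card (A hc g) ≤ B := by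
  by_cases htriv : ∀ g, g ∉ S → A hc g = ⊥
  · refine ⟨1, fun g hg => ?_⟩
    rw [htriv g hg]; simp
  push Not at htriv
  obtain ⟨g0, hg0, hne0⟩ := htriv
  obtain ⟨z, hzA, hz1⟩ := (Subgroup.ne_bot_iff_exists_ne_one).1 hne0 |>.elim
    (fun a ha => (⟨a.1, a.2, fun e => ha (Subtype.ext e)⟩ : ∃ z, z ∈ A hc g0 ∧ z ≠ 1))
  obtain ⟨m0, hm0, -⟩ := A_info hp h hS hc hg0
  obtain ⟨N, hN, hNo, hzN⟩ := h.sep hz1
  obtain ⟨e, he⟩ := h.index N hN hNo
  refine ⟨p ^ (e + m0), ?_⟩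
  intro g hg
  obtain ⟨g3, hg3, h1, h2⟩ := directed hp h hS hc hg hg0
  obtain ⟨M, hM, hcyc⟩ := A_info hp h hS hc hg3
  have hfin3 : Finite (A hc g3) :=
    Nat.finite_of_card_ne_zero (by rw [hM]; exact pow_ne_zero _ hp.ne_zero)
  have hle : Nat.card (A hc g) ≤ Nat.card (A hc g3) := Subgroup.card_le_of_le h1
  refine hle.trans ?_
  rw [hM]
  apply Nat.pow_le_pow_right hp.pos
  by_contra hcon
  push Not at hcon
  apply hzN
  obtain ⟨a, hgen⟩ := hcyc.exists_generator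
  obtain ⟨j, hj⟩ := hgen ⟨z, h2 hzA⟩
  have hj' : (a : G) ^ j = z := by
    have := congrArg Subtype.val hj
    simpa using this
  have hao : orderOf (a : G) = p ^ M := by
    rw [← hM, ← orderOf_eq_card_of_forall_mem_zpowers hgen, Subgroup.orderOf_coe]
  have hzo : z ^ (p ^ m0) = 1 := by
    have hfin0 : Finite (A hc g0) :=
      Nat.finite_of_card_ne_zero (by rw [hm0]; exact pow_ne_zero _ hp.ne_zero)
    have := pow_card_eq_one' (x := (⟨z, hzA⟩ : A hc g0))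
    rw [hm0] at this
    simpa using congrArg Subtype.val this
  have hd : ((p ^ M : ℕ) : ℤ) ∣ j * ((p ^ m0 : ℕ) : ℤ) := by
    rw [← hao, orderOf_dvd_iff_zpow_eq_one, zpow_mul, hj', zpow_natCast, hzo]
  have hd2 : ((p ^ e : ℕ) : ℤ) ∣ j := by
    have h3 : ((p ^ (e + m0) : ℕ) : ℤ) ∣ j * ((p ^ m0 : ℕ) : ℤ) := by
      refine dvd_trans ?_ hd
      exact_mod_cast pow_dvd_pow p hcon.le
    rw [pow_add, Nat.cast_mul] at h3
    exact Int.dvd_of_mul_dvd_mul_right (by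
      exact_mod_cast pow_ne_zero m0 hp.ne_zero) h3
  obtain ⟨c, rfl⟩ := hd2
  rw [← hj', zpow_mul, zpow_natCast, ← he]
  apply zpow_mem
  exact Subgroup.pow_index_mem N _

/-- the main theorem on Cappitt groups -/
theorem main (hp : p.Prime) (h : IsProP p G) (hS : Cap S) :
    ∃ (D : Subgroup G) (n : ℕ), D = commutator G ∧ IsClosed (D : Set G) ∧ IsCyclic D ∧
      Nat.card D = p ^ n := by
  have hc := central h hS
  obtain ⟨B, hB⟩ := bounded hp h hS hc
  have := h.t2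
  -- a group of maximal order
  obtain ⟨g0, hg0⟩ := exists_not_mem hS
  have hex : ∃ k, ∃ g, g ∉ S ∧ B - Nat.card (A hc g) = k := ⟨_, g0, hg0, rfl⟩
  classical
  obtain ⟨g, hg, hmin⟩ := Nat.find_spec hex
  have hmin' : ∀ g', g' ∉ S → Nat.card (A hc g') ≤ Nat.card (A hc g) := by
    intro g' hg'
    have h1 := Nat.find_min' hex ⟨g', hg', rfl⟩
    have h2 := hB g' hg'
    have h3 := hB g hg
    omega
  obtain ⟨n, hn, hcyc⟩ := A_info hp h hS hc hg
  have hfin : Finite (A hc g) :=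
    Nat.finite_of_card_ne_zero (by rw [hn]; exact pow_ne_zero _ hp.ne_zero)
  refine ⟨A hc g, n, ?_, (Set.toFinite _).isClosed, hcyc, hn⟩
  apply le_antisymm (A_le_commutator g)
  intro x hx
  obtain ⟨g1, hg1, hx1⟩ := mem_commutator hp h hS hc hx
  obtain ⟨g3, hg3, h3, h4⟩ := directed hp h hS hc hg hg1
  obtain ⟨m3, hm3, -⟩ := A_info hp h hS hc hg3
  have hfin3 : Finite (A hc g3) :=
    Nat.finite_of_card_ne_zero (by rw [hm3]; exact pow_ne_zero _ hp.ne_zero)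
  have heq : A hc g = A hc g3 := Subgroup.eq_of_le_of_card_ge h3 (hmin' g3 hg3)
  rw [heq]
  exact h4 hx1

end Pool.Agent.Q180.PG
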